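import Pool.Agent.K9h6.T10.Gap

/-! Differences of consecutive primes in residue classes, from a general admissible tuple
(adapted from `K9h6/T10/Cns.lean`, `K9h6/T10/Gap.lean`, adding a residue class modulo a squarefree `q`). -/

set_option autoImplicit false

open Finset Filter

namespace Pool.Agent.K9h56.PG

open Pool.Agent.H95R2.BG (Admissible TwoPrimes goodN)
open Pool.Agent.K9h6.C (DhlCount)
open Pool.Agent.K9h6.T10

theorem Y4_class0 {K : ℕ} (h : Fin K → ℕ) (q : ℕ) (hq0 : 0 < q) : ∃ Q b : ℕ, Squarefree Q ∧ q.Coprime Q ∧ (∀ i, (b + h i).Coprime Q) ∧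
    ∀ n, n ≡ b [MOD Q] → Q < n → ∀ t, (∃ j, t ≤ h j) → (∀ i, t ≠ h i) → ¬ (n + t).Prime := by
  classical
  obtain ⟨Hm, hHm⟩ : ∃ Hm, ∀ i, h i ≤ Hm := ⟨Finset.univ.sup h, fun i => Finset.le_sup (Finset.mem_univ i)⟩
  set B : Finset ℕ := (range (Hm + 1)).filter (fun t => ∀ i, t ≠ h i) with hB
  set p : ℕ → ℕ := fun t => Nat.nth Nat.Prime (Hm + 1 + q + t) with hp
  have hpp : ∀ t, (p t).Prime := fun t => Nat.prime_nth_prime _
  have hpl : ∀ t, Hm + q + t < p t := fun t => by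
    have := Nat.add_two_le_nth_prime (Hm + 1 + q + t)
    show Hm + q + t < Nat.nth Nat.Prime (Hm + 1 + q + t)
    omega
  have hpinj : ∀ s t, p s = p t → s = t := by
    intro s t hst
    have := Nat.nth_injective Nat.infinite_setOfPred_prime hst
    omega
  have hcop : ∀ s t, s ≠ t → Nat.Coprime (p s) (p t) := fun s t hst =>
    (Nat.coprime_primes (hpp s) (hpp t)).mpr (fun e => hst (hpinj s t e))
  have hcop' : Set.Pairwise (B : Set ℕ) (Function.onFun Nat.Coprime p) := fun s _ t _ hst => hcop s t hst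
  obtain ⟨b, hb⟩ := Nat.chineseRemainderOfFinset (fun t => p t - t) p B (fun i _ => (hpp i).ne_zero) hcop'
  have hbt : ∀ t ∈ B, p t ∣ b + t := by
    intro t ht
    have h1 := hb t ht
    have h2 : b + t ≡ (p t - t) + t [MOD p t] := h1.add_right t
    rw [Nat.sub_add_cancel (by have := hpl t; omega)] at h2
    have h3 : p t ≡ 0 [MOD p t] := by simp [Nat.ModEq]
    exact (Nat.modEq_zero_iff_dvd).mp (h2.trans h3)
  refine ⟨∏ t ∈ B, p t, b, ?_, ?_, ?_, ?_⟩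
  · apply Finset.squarefree_prod_of_pairwise_isCoprime
    · intro s hs t ht hst
      exact Nat.coprime_iff_isRelPrime.mp (hcop s t hst)
    · intro t _
      exact (hpp t).squarefree
  · apply Nat.Coprime.prod_right
    intro t _
    rw [Nat.coprime_comm, (hpp t).coprime_iff_not_dvd]
    intro hd
    have h1 := Nat.le_of_dvd hq0 hd
    have h2 := hpl t
    omega
  · intro i
    apply Nat.Coprime.prod_right
    intro t ht
    rw [Nat.coprime_comm, (hpp t).coprime_iff_not_dvd]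
    intro hd
    have h1 := hbt t ht
    have h2 : (p t : ℤ) ∣ (h i : ℤ) - t := by
      have h3 : (p t : ℤ) ∣ ((b + h i : ℕ) : ℤ) := by exact_mod_cast hd
      have h4 : (p t : ℤ) ∣ ((b + t : ℕ) : ℤ) := by exact_mod_cast h1
      have := dvd_sub h3 h4
      push_cast at this
      have e : (b : ℤ) + h i - (b + t) = h i - t := by ring
      rwa [e] at this
    rw [hB, Finset.mem_filter, Finset.mem_range] at ht
    have h5 : (h i : ℤ) - t = 0 := by
      apply Int.eq_zero_of_abs_lt_dvd h2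
      have := hHm i
      have := hpl t
      rw [abs_lt]
      constructor <;> omega
    exact ht.2 i (by omega)
  · intro n hn hQn t ⟨j, hj⟩ ht hprime
    have htB : t ∈ B := by
      rw [hB, Finset.mem_filter, Finset.mem_range]
      exact ⟨by have := hHm j; omega, ht⟩
    have h1 : p t ∣ ∏ t ∈ B, p t := Finset.dvd_prod_of_mem p htB
    have h2 : n ≡ b [MOD p t] := hn.of_dvd h1
    have h3 : p t ∣ n + t := (Nat.modEq_zero_iff_dvd).mp
      ((h2.add_right t).trans ((Nat.modEq_zero_iff_dvd).mpr (hbt t htB)))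
    have h4 : p t ≤ ∏ t ∈ B, p t := Nat.le_of_dvd (Finset.prod_pos fun s _ => (hpp s).pos) h1
    rcases (Nat.dvd_prime hprime).mp h3 with h5 | h5
    · exact (hpp t).one_lt.ne' h5
    · omega


/-- the class may be prescribed modulo a squarefree `q` -/
theorem Y4_classq {K : ℕ} (h : Fin K → ℕ) (q c : ℕ) (hq : Squarefree q) (hc : ∀ i, (c + h i).Coprime q) :
    ∃ Q b : ℕ, Squarefree Q ∧ q ∣ Q ∧ b ≡ c [MOD q] ∧ (∀ i, (b + h i).Coprime Q) ∧
    ∀ n, n ≡ b [MOD Q] → Q < n → ∀ t, (∃ j, t ≤ h j) → (∀ i, t ≠ h i) → ¬ (n + t).Prime := by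
  have hq0 : 0 < q := Nat.pos_of_ne_zero hq.ne_zero
  obtain ⟨Q, b, hQ, hqQ, hbQ, hcomp⟩ := Y4_class0 h q hq0
  have hQ0 : 0 < Q := Nat.pos_of_ne_zero hQ.ne_zero
  obtain ⟨b', hb1, hb2⟩ := Nat.chineseRemainder hqQ c b
  refine ⟨q * Q, b', ?_, Dvd.intro _ rfl, hb1, ?_, ?_⟩
  · exact (Nat.squarefree_mul hqQ).mpr ⟨hq, hQ⟩
  · intro i
    apply Nat.Coprime.mul_right
    · have e : b' + h i ≡ c + h i [MOD q] := hb1.add_right _
      have := e.gcd_eq
      rw [Nat.Coprime, this]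
      exact hc i
    · have e : b' + h i ≡ b + h i [MOD Q] := hb2.add_right _
      have := e.gcd_eq
      rw [Nat.Coprime, this]
      exact hbQ i
  · intro n hn hlt t ht1 ht2
    refine hcomp n ((hn.of_mul_left q).trans hb2) ?_ t ht1 ht2
    have : Q ≤ q * Q := Nat.le_mul_of_pos_left _ hq0
    omega

open Classical in
/-- X4: consecutive primes: all primes of the interval spanned by the tuple belong to the tuple -/
theorem consecutive_of_countq {K : ℕ} (hK : 0 < K) (H : DhlCount K) (a : Fin K → ℤ) (hinj : Function.Injective a)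
    (hadm : ∀ p : ℕ, p.Prime → ∃ r : ℤ, ∀ i, ¬ (p : ℤ) ∣ r + a i) (q : ℕ) (hq : Squarefree q) (c : ℤ)
    (hc : ∀ i, IsCoprime (c + a i) (q : ℤ)) (ε : ℝ) (hε : 0 < ε) :
    ∀ᶠ x : ℝ in atTop, x ^ (1 - ε) ≤ (((Icc 1 ⌊x⌋₊).filter (fun n : ℕ =>
      (n : ℤ) ≡ c [ZMOD q] ∧ (∃ i j, i ≠ j ∧ ∃ p q : ℕ, p.Prime ∧ q.Prime ∧ (p : ℤ) = n + a i ∧ (q : ℤ) = n + a j) ∧
      ∀ p : ℕ, p.Prime → (∃ i j, (n : ℤ) + a i ≤ p ∧ (p : ℤ) ≤ n + a j) → ∃ i, (p : ℤ) = n + a i)).card : ℝ) := by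
  obtain ⟨i0, -, hi0⟩ := Finset.exists_min_image (Finset.univ : Finset (Fin K)) a ⟨⟨0, hK⟩, Finset.mem_univ _⟩
  set m := a i0 with hm
  have hmle : ∀ i, m ≤ a i := fun i => hi0 i (Finset.mem_univ _)
  have hcast : ∀ i, (((a i - m).toNat : ℕ) : ℤ) = a i - m := fun i => Int.toNat_of_nonneg (by linarith [hmle i])
  have hA : Admissible (fun i => (a i - m).toNat) := by
    refine ⟨fun i j hij => hinj ?_, fun p hp => ?_⟩
    · have h1 := hcast i
      have h2 := hcast j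
      have hij' : (a i - m).toNat = (a j - m).toNat := hij
      rw [hij', h2] at h1
      linarith
    · obtain ⟨r, hr⟩ := hadm p hp
      refine ⟨((r + m) % p).toNat, fun i hdvd => hr i ?_⟩
      have hp0 : (p : ℤ) ≠ 0 := by exact_mod_cast hp.ne_zero
      have h3 : (((r + m) % p).toNat : ℤ) = (r + m) % p := Int.toNat_of_nonneg (Int.emod_nonneg _ hp0)
      have h4 : (p : ℤ) ∣ (((r + m) % p).toNat : ℤ) + (((a i - m).toNat : ℕ) : ℤ) := by exact_mod_cast hdvd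
      rw [h3, hcast i] at h4
      have h5 : r + a i = ((r + m) % p + (a i - m)) + p * ((r + m) / p) := by
        have := Int.emod_add_mul_ediv (r + m) p
        linarith
      rw [h5]
      exact dvd_add h4 (dvd_mul_right _ _)
  have hq0 : (q : ℤ) ≠ 0 := by exact_mod_cast hq.ne_zero
  have hb0 : ((((c + m) % q).toNat : ℕ) : ℤ) = (c + m) % q := Int.toNat_of_nonneg (Int.emod_nonneg _ hq0)
  obtain ⟨Q, b, hQ, hqQ, hbc, hbQ, hcomp⟩ := Y4_classq (fun i => (a i - m).toNat) q ((c + m) % q).toNat hq (by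
    intro i
    rw [← Nat.isCoprime_iff_coprime]
    push_cast
    rw [hb0, hcast i]
    have h1 : c + a i = ((c + m) % q + (a i - m)) + q * ((c + m) / q) := by
      have := Int.emod_add_mul_ediv (c + m) q
      linarith
    have h2 := hc i
    rw [h1] at h2
    exact IsCoprime.of_add_mul_right_left (z := (c + m) / q) (by rw [mul_comm]; exact h2))
  obtain ⟨δ, hδ, hasy⟩ := Y5_asy ε hε 1 (Q + m.natAbs + 1)
  have h1 := H (fun i => (a i - m).toNat) hA Q b hQ hbQ δ hδ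
  have h2 : Tendsto (fun x : ℝ => x / 2) atTop atTop := tendsto_id.atTop_div_const (by norm_num)
  filter_upwards [hasy, h2.eventually h1, eventually_ge_atTop (2 * (m.natAbs : ℝ) + 1)] with x hx1 hx2 hx3
  set T := (Icc 1 ⌊x⌋₊).filter (fun n : ℕ =>
      (n : ℤ) ≡ c [ZMOD q] ∧ (∃ i j, i ≠ j ∧ ∃ p q : ℕ, p.Prime ∧ q.Prime ∧ (p : ℤ) = n + a i ∧ (q : ℤ) = n + a j) ∧
      ∀ p : ℕ, p.Prime → (∃ i j, (n : ℤ) + a i ≤ p ∧ (p : ℤ) ≤ n + a j) → ∃ i, (p : ℤ) = n + a i) with hT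
  set G := goodN (fun i => (a i - m).toNat) Q b (x / 2) with hG
  set S := G \ range (Q + m.natAbs + 1) with hS
  have hx0 : (0 : ℝ) ≤ x := by
    have : (0 : ℝ) ≤ (m.natAbs : ℝ) := Nat.cast_nonneg _
    linarith
  have habs1 : m ≤ (m.natAbs : ℤ) := Int.le_natAbs
  have habs2 : - m ≤ (m.natAbs : ℤ) := by
    have := Int.le_natAbs (a := -m)
    rwa [Int.natAbs_neg] at this
  have hmaps : ∀ n ∈ S, ((n : ℤ) - m).toNat ∈ T := by
    intro n hn
    rw [hS, Finset.mem_sdiff, hG, goodN, Finset.mem_filter, Finset.mem_Icc, Finset.mem_range] at hn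
    obtain ⟨⟨⟨hn1, hnx⟩, hnb, i, j, hij, hi, hj⟩, hn2⟩ := hn
    have hnx' : (n : ℝ) ≤ x / 2 := (Nat.le_floor_iff (by linarith)).mp hnx
    have hn3 : (((n : ℤ) - m).toNat : ℤ) = n - m := Int.toNat_of_nonneg (by omega)
    rw [hT, Finset.mem_filter, Finset.mem_Icc]
    refine ⟨⟨by omega, ?_⟩, ?_, ⟨i, j, hij, _, _, hi, hj, ?_, ?_⟩, ?_⟩
    · rw [Nat.le_floor_iff hx0]
      have h5 : ((((n : ℤ) - m).toNat : ℕ) : ℤ) ≤ ((n + m.natAbs : ℕ) : ℤ) := by
        rw [hn3, Nat.cast_add]; omega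
      have h6 : (((n : ℤ) - m).toNat : ℕ) ≤ n + m.natAbs := by exact_mod_cast h5
      have h7 : ((((n : ℤ) - m).toNat : ℕ) : ℝ) ≤ ((n + m.natAbs : ℕ) : ℝ) := by exact_mod_cast h6
      push_cast at h7 ⊢
      linarith
    · rw [hn3]
      have e1 : n ≡ b [MOD q] := hnb.of_dvd hqQ
      have e2 : n ≡ ((c + m) % q).toNat [MOD q] := e1.trans hbc
      have e3 : (n : ℤ) ≡ ((((c + m) % q).toNat : ℕ) : ℤ) [ZMOD q] := (Int.natCast_modEq_iff).mpr e2
      rw [hb0] at e3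
      have e4 : (n : ℤ) ≡ c + m [ZMOD q] := e3.trans (Int.mod_modEq _ _)
      have e5 := e4.sub_right m
      rwa [add_sub_cancel_right] at e5
    · push_cast
      rw [hn3, hcast i]; ring
    · push_cast
      rw [hn3, hcast j]; ring
    · rintro p hp ⟨k, l, hk, hl⟩
      rw [hn3] at hk hl
      have hck := hcast k
      have hcl := hcast l
      have hkm := hmle k
      by_contra hcon
      push Not at hcon
      obtain ⟨t, rfl⟩ : ∃ t, p = n + t := ⟨p - n, by omega⟩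
      refine hcomp n hnb (by omega) t ⟨l, ?_⟩ ?_ hp
      · have : (t : ℤ) ≤ (((a l - m).toNat : ℕ) : ℤ) := by
          rw [hcl]; push_cast at hl; linarith
        exact_mod_cast this
      · intro i' hti
        apply hcon i'
        rw [hn3, hti]
        push_cast
        rw [hcast i']; ring
  have hinjS : Set.InjOn (fun n : ℕ => ((n : ℤ) - m).toNat) (S : Set ℕ) := by
    intro n hn n' hn' hnn
    rw [Finset.mem_coe, hS, Finset.mem_sdiff, Finset.mem_range] at hn hn'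
    have e1 : (((n : ℤ) - m).toNat : ℤ) = n - m := Int.toNat_of_nonneg (by omega)
    have e2 : (((n' : ℤ) - m).toNat : ℤ) = n' - m := Int.toNat_of_nonneg (by omega)
    have e3 : ((n : ℤ) - m).toNat = ((n' : ℤ) - m).toNat := hnn
    rw [e3, e2] at e1
    omega
  have hcard : S.card ≤ T.card := Finset.card_le_card_of_injOn _ hmaps hinjS
  have hcard3 : G.card ≤ S.card + (Q + m.natAbs + 1) := by
    have h5 := Finset.le_card_sdiff (range (Q + m.natAbs + 1)) G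
    rw [Finset.card_range, ← hS] at h5
    omega
  have hcard4 : (G.card : ℝ) ≤ (T.card : ℝ) + (Q + m.natAbs + 1) := by
    have : G.card ≤ T.card + (Q + m.natAbs + 1) := by omega
    exact_mod_cast this
  linarith



/-- indices `m` with `p_m ≤ x`, `p_m ≡ c (mod q)` and `p_{m+1} - p_m = d` -/
def gapSetC (q : ℕ) (c d : ℤ) (x : ℝ) : Set ℕ :=
  {m : ℕ | (Nat.nth Nat.Prime m : ℝ) ≤ x ∧ (Nat.nth Nat.Prime m : ℤ) ≡ c [ZMOD q] ∧
    (Nat.nth Nat.Prime (m + 1) : ℤ) - Nat.nth Nat.Prime m = d}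

theorem gapSetC_finite (q : ℕ) (c d : ℤ) (x : ℝ) : (gapSetC q c d x).Finite :=
  (gapSet_finite d x).subset fun _ hm => ⟨hm.1, hm.2.2⟩

open Classical in
theorem gap_of_admissibleq {K : ℕ} (hK : 0 < K) (H : DhlCount K) (a : Fin K → ℤ) (hinj : Function.Injective a)
    (hadm : ∀ p : ℕ, p.Prime → ∃ r : ℤ, ∀ i, ¬ (p : ℤ) ∣ r + a i) (q : ℕ) (hq : Squarefree q) (c : ℤ)
    (hqa : ∀ i, (q : ℤ) ∣ a i) (hc : IsCoprime c (q : ℤ)) :
    ∃ i j, a i < a j ∧ ∀ ε : ℝ, 0 < ε → ∃ᶠ x : ℝ in atTop, x ^ (1 - ε) ≤ ((gapSetC q c (a j - a i) x).ncard : ℝ) := by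
  have hcc : ∀ i, IsCoprime (c + a i) (q : ℤ) := by
    intro i
    obtain ⟨t, ht⟩ := hqa i
    rw [ht]
    exact IsCoprime.add_mul_left_left hc t
  by_contra hcon
  push Not at hcon
  have hpair : ∀ ij : Fin K × Fin K, ∃ ε : ℝ, 0 < ε ∧ (a ij.1 < a ij.2 →
      ∀ᶠ x : ℝ in atTop, ((gapSetC q c (a ij.2 - a ij.1) x).ncard : ℝ) < x ^ (1 - ε)) := by
    intro ij
    by_cases h : a ij.1 < a ij.2
    · obtain ⟨ε, hε, hx⟩ := hcon ij.1 ij.2 h
      refine ⟨ε, hε, fun _ => ?_⟩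
      filter_upwards [hx] with x hx
      exact hx
    · exact ⟨1, one_pos, fun h' => absurd h' h⟩
  choose e he0 he using hpair
  obtain ⟨ij0, -, hmin⟩ := Finset.exists_min_image (Finset.univ : Finset (Fin K × Fin K)) e ⟨(⟨0, hK⟩, ⟨0, hK⟩), Finset.mem_univ _⟩
  set ε := e ij0 with hεdef
  have hε : 0 < ε := he0 ij0
  obtain ⟨δ, hδ, hasy⟩ := Y5_asy ε hε ((K : ℝ) * K) 1
  -- bound on the shifts
  obtain ⟨A, hA⟩ : ∃ A : ℕ, ∀ i, a i ≤ A := by
    obtain ⟨i0, -, hi0⟩ := Finset.exists_max_image (Finset.univ : Finset (Fin K)) a ⟨⟨0, hK⟩, Finset.mem_univ _⟩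
    exact ⟨(a i0).toNat, fun i => (hi0 i (Finset.mem_univ _)).trans (Int.self_le_toNat _)⟩
  have hall : ∀ᶠ x : ℝ in atTop, ∀ ij : Fin K × Fin K, a ij.1 < a ij.2 →
      ((gapSetC q c (a ij.2 - a ij.1) x).ncard : ℝ) < x ^ (1 - e ij) := by
    rw [Filter.eventually_all]
    intro ij
    by_cases h : a ij.1 < a ij.2
    · filter_upwards [he ij h] with x hx _ using hx
    · exact Filter.Eventually.of_forall fun x h' => absurd h' h
  have h2 : Tendsto (fun x : ℝ => x / 2) atTop atTop := tendsto_id.atTop_div_const (by norm_num)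
  have hT := h2.eventually (consecutive_of_countq hK H a hinj hadm q hq c hcc δ hδ)
  obtain ⟨x, hx1, hx2, hx3, hx4, hx5⟩ := (hT.and (hall.and (hasy.and
    ((eventually_ge_atTop (1 : ℝ)).and (eventually_ge_atTop (2 * (A : ℝ))))))).exists
  set S := ((Icc 1 ⌊x / 2⌋₊).filter (fun n : ℕ =>
      (n : ℤ) ≡ c [ZMOD q] ∧ (∃ i j, i ≠ j ∧ ∃ p q : ℕ, p.Prime ∧ q.Prime ∧ (p : ℤ) = n + a i ∧ (q : ℤ) = n + a j) ∧
      ∀ p : ℕ, p.Prime → (∃ i j, (n : ℤ) + a i ≤ p ∧ (p : ℤ) ≤ n + a j) → ∃ i, (p : ℤ) = n + a i)) with hS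
  have hSsub : (S : Set ℕ) ⊆ ⋃ ij : Fin K × Fin K, {n : ℕ | a ij.1 < a ij.2 ∧ (n : ℤ) ≡ c [ZMOD q] ∧ (n : ℝ) ≤ x / 2 ∧
      ∃ m : ℕ, (Nat.nth Nat.Prime m : ℤ) = n + a ij.1 ∧ (Nat.nth Nat.Prime (m + 1) : ℤ) = n + a ij.2} := by
    intro n hn
    rw [Finset.mem_coe, hS, Finset.mem_filter, Finset.mem_Icc] at hn
    obtain ⟨⟨hn1, hn2⟩, hn0, hn3, hn4⟩ := hn
    obtain ⟨i, j, hij, m, hm⟩ := consec_pair a n hn3 hinj hn4
    rw [Set.mem_iUnion]
    exact ⟨(i, j), hij, hn0, (Nat.le_floor_iff (by linarith)).mp hn2, m, hm⟩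
  have hbnd : ∀ ij : Fin K × Fin K, (({n : ℕ | a ij.1 < a ij.2 ∧ (n : ℤ) ≡ c [ZMOD q] ∧ (n : ℝ) ≤ x / 2 ∧
      ∃ m : ℕ, (Nat.nth Nat.Prime m : ℤ) = n + a ij.1 ∧ (Nat.nth Nat.Prime (m + 1) : ℤ) = n + a ij.2}).ncard : ℝ) ≤
      x ^ (1 - ε) ∧ ({n : ℕ | a ij.1 < a ij.2 ∧ (n : ℤ) ≡ c [ZMOD q] ∧ (n : ℝ) ≤ x / 2 ∧
      ∃ m : ℕ, (Nat.nth Nat.Prime m : ℤ) = n + a ij.1 ∧ (Nat.nth Nat.Prime (m + 1) : ℤ) = n + a ij.2}).Finite := by
    intro ij
    by_cases h : a ij.1 < a ij.2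
    · set U := {n : ℕ | a ij.1 < a ij.2 ∧ (n : ℤ) ≡ c [ZMOD q] ∧ (n : ℝ) ≤ x / 2 ∧
        ∃ m : ℕ, (Nat.nth Nat.Prime m : ℤ) = n + a ij.1 ∧ (Nat.nth Nat.Prime (m + 1) : ℤ) = n + a ij.2} with hU
      have hUm : ∀ n ∈ U, ∃ m ∈ gapSetC q c (a ij.2 - a ij.1) x, (Nat.nth Nat.Prime m : ℤ) = n + a ij.1 := by
        rintro n ⟨-, hn0, hnx, m, hm1, hm2⟩
        refine ⟨m, ⟨?_, ?_, by rw [hm1, hm2]; ring⟩, hm1⟩
        rotate_left
        · rw [hm1]
          have e1 : a ij.1 ≡ 0 [ZMOD q] := (Int.modEq_zero_iff_dvd).mpr (hqa _)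
          have := hn0.add e1
          rwa [add_zero] at this
        have : ((Nat.nth Nat.Prime m : ℕ) : ℤ) ≤ n + A := by rw [hm1]; linarith [hA ij.1]
        have h3 : ((Nat.nth Nat.Prime m : ℕ) : ℝ) ≤ n + A := by exact_mod_cast this
        linarith
      choose! g hg1 hg2 using hUm
      have hginj : Set.InjOn g U := by
        intro n hn n' hn' hnn
        have e1 := hg2 n hn
        have e2 := hg2 n' hn'
        rw [hnn] at e1
        have : (n : ℤ) = n' := by linarith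
        exact_mod_cast this
      have hfin : U.Finite := Set.Finite.of_injOn (fun n hn => hg1 n hn) hginj (gapSetC_finite _ _ _ _)
      refine ⟨?_, hfin⟩
      have h5 : U.ncard ≤ (gapSetC q c (a ij.2 - a ij.1) x).ncard :=
        Set.ncard_le_ncard_of_injOn g (fun n hn => hg1 n hn) hginj (gapSetC_finite _ _ _ _)
      have h6 : (U.ncard : ℝ) ≤ ((gapSetC q c (a ij.2 - a ij.1) x).ncard : ℝ) := by exact_mod_cast h5
      refine h6.trans ((hx2 ij h).le.trans ?_)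
      exact Real.rpow_le_rpow_of_exponent_le hx4 (by linarith [hmin ij (Finset.mem_univ _)])
    · have : {n : ℕ | a ij.1 < a ij.2 ∧ (n : ℤ) ≡ c [ZMOD q] ∧ (n : ℝ) ≤ x / 2 ∧
        ∃ m : ℕ, (Nat.nth Nat.Prime m : ℤ) = n + a ij.1 ∧ (Nat.nth Nat.Prime (m + 1) : ℤ) = n + a ij.2} = ∅ := by
        ext n
        simp [h]
      rw [this]
      exact ⟨by simp only [Set.ncard_empty, Nat.cast_zero]; exact Real.rpow_nonneg (by linarith) _, Set.finite_empty⟩
  have hcard : (S.card : ℝ) ≤ ((K : ℝ) * K) * x ^ (1 - ε) := by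
    have h7 : S.card ≤ ∑ ij : Fin K × Fin K, ({n : ℕ | a ij.1 < a ij.2 ∧ (n : ℤ) ≡ c [ZMOD q] ∧ (n : ℝ) ≤ x / 2 ∧
      ∃ m : ℕ, (Nat.nth Nat.Prime m : ℤ) = n + a ij.1 ∧ (Nat.nth Nat.Prime (m + 1) : ℤ) = n + a ij.2}).ncard := by
      rw [← Set.ncard_coe_finset]
      refine (Set.ncard_le_ncard hSsub (Set.finite_iUnion fun ij => (hbnd ij).2)).trans ?_
      have := Set.ncard_iUnion_le_of_fintype (fun ij : Fin K × Fin K => {n : ℕ | a ij.1 < a ij.2 ∧ (n : ℤ) ≡ c [ZMOD q] ∧ (n : ℝ) ≤ x / 2 ∧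
        ∃ m : ℕ, (Nat.nth Nat.Prime m : ℤ) = n + a ij.1 ∧ (Nat.nth Nat.Prime (m + 1) : ℤ) = n + a ij.2})
      exact this
    have h8 : (S.card : ℝ) ≤ ∑ ij : Fin K × Fin K, (({n : ℕ | a ij.1 < a ij.2 ∧ (n : ℤ) ≡ c [ZMOD q] ∧ (n : ℝ) ≤ x / 2 ∧
      ∃ m : ℕ, (Nat.nth Nat.Prime m : ℤ) = n + a ij.1 ∧ (Nat.nth Nat.Prime (m + 1) : ℤ) = n + a ij.2}).ncard : ℝ) := by
      exact_mod_cast h7
    refine h8.trans ((Finset.sum_le_sum fun ij _ => (hbnd ij).1).trans ?_)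
    rw [Finset.sum_const, Finset.card_univ, Fintype.card_prod, Fintype.card_fin, nsmul_eq_mul]
    norm_num
  have : (x / 2) ^ (1 - δ) ≤ ((K : ℝ) * K) * x ^ (1 - ε) := by
    refine le_trans ?_ hcard
    convert hx1
  linarith



theorem multiple_gapq {K : ℕ} (hK : 0 < K) (H : DhlCount K) (D : ℕ) (tup : Fin K → ℕ) (hadm : Admissible tup)
    (hle : ∀ i, tup i ≤ 2 * D) (heven : ∀ i, 2 ∣ tup i) (N : ℕ) (hN : 0 < N)
    (q : ℕ) (hq : Squarefree q) (c : ℤ) (hqN : q ∣ 2 * N) (hc : IsCoprime c (q : ℤ)) :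
    ∃ k : ℕ, 1 ≤ k ∧ k ≤ D ∧ ∀ ε : ℝ, 0 < ε → ∃ᶠ x : ℝ in atTop,
      x ^ (1 - ε) ≤ ((gapSetC q c ((k : ℤ) * (2 * N)) x).ncard : ℝ) := by
  obtain ⟨i, j, hij, h⟩ := gap_of_admissibleq hK H (fun i => (N : ℤ) * tup i) (by
      intro i j hij
      have h1 : (N : ℤ) * tup i = N * tup j := hij
      have h2 : (tup i : ℤ) = tup j := mul_left_cancel₀ (by exact_mod_cast hN.ne') h1
      exact hadm.1 (by exact_mod_cast h2)) (by
      intro p hp
      by_cases hpN : p ∣ N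
      · refine ⟨1, fun i hdvd => ?_⟩
        have h1 : (p : ℤ) ∣ (N : ℤ) * tup i := Dvd.dvd.mul_right (by exact_mod_cast hpN) _
        have h2 : (p : ℤ) ∣ 1 := (Int.dvd_iff_dvd_of_dvd_add hdvd).mpr h1
        have h3 : (p : ℕ) ∣ 1 := by exact_mod_cast h2
        exact hp.one_lt.ne' (Nat.dvd_one.mp h3)
      · obtain ⟨a0, ha0⟩ := hadm.2 p hp
        refine ⟨(N : ℤ) * a0, fun i hdvd => ?_⟩
        have h1 : (p : ℤ) ∣ (N : ℤ) * ((a0 + tup i : ℕ) : ℤ) := by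
          push_cast
          rw [mul_add]
          exact hdvd
        have h2 : p ∣ N * (a0 + tup i) := by exact_mod_cast h1
        rcases hp.dvd_mul.mp h2 with h3 | h3
        · exact hpN h3
        · exact ha0 i h3) q hq c (by
      intro i
      obtain ⟨u, hu⟩ := heven i
      obtain ⟨v, hv⟩ := hqN
      refine ⟨(v : ℤ) * u, ?_⟩
      have h1 : (2 : ℤ) * N = q * v := by exact_mod_cast hv
      have h2 : (tup i : ℤ) = 2 * u := by exact_mod_cast hu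
      show (N : ℤ) * tup i = q * (v * u)
      rw [h2]
      linear_combination (u : ℤ) * h1) hc
  have hlt : tup i < tup j := by
    have h1 : (N : ℤ) * tup i < N * tup j := hij
    have h2 : (tup i : ℤ) < tup j := lt_of_mul_lt_mul_left h1 (by positivity)
    exact_mod_cast h2
  obtain ⟨u, hu⟩ := heven i
  obtain ⟨v, hv⟩ := heven j
  have hj := hle j
  refine ⟨v - u, by omega, by omega, fun ε hε => ?_⟩
  have e : ((v - u : ℕ) : ℤ) * (2 * N) = (N : ℤ) * tup j - (N : ℤ) * tup i := by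
    rw [Nat.cast_sub (by omega), hu, hv]
    push_cast
    ring
  rw [e]
  exact h ε hε


end Pool.Agent.K9h56.PG
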