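import Pool.Agent.K9h56.PG.Gap
import Pool.Agent.K9h6.T10.Cons
import Pool.Agent.K9h6.C.Final

/-! Consequences of `DHL[43,2]` for gaps between primes in residue classes. -/

set_option autoImplicit false

open Finset Filter

namespace Pool.Agent.K9h56.PG

open Pool.Agent.H95R2.BG (Admissible TwoPrimes goodN)
open Pool.Agent.K9h6.C (DhlCount)
open Pool.Agent.K9h6.T10

/-- the set of the indices of the consecutive primes `p ≤ x`, `p ≡ c (mod q)`, `p' = p + d` -/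
theorem gapSetC_eq (q c d : ℕ) (x : ℝ) : gapSetC q (c : ℤ) (d : ℤ) x =
    {n : ℕ | (Nat.nth Nat.Prime n : ℝ) ≤ x ∧ Nat.nth Nat.Prime n ≡ c [MOD q] ∧
      Nat.nth Nat.Prime (n + 1) = Nat.nth Nat.Prime n + d} := by
  ext n
  simp only [gapSetC, Set.mem_ofPred_eq]
  rw [Int.natCast_modEq_iff]
  constructor
  · rintro ⟨h1, h2, h3⟩
    refine ⟨h1, h2, ?_⟩
    have : ((Nat.nth Nat.Prime (n + 1) : ℕ) : ℤ) = ((Nat.nth Nat.Prime n + d : ℕ) : ℤ) := by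
      push_cast
      linarith
    exact_mod_cast this
  · rintro ⟨h1, h2, h3⟩
    refine ⟨h1, h2, ?_⟩
    rw [h3]
    push_cast
    ring

/-- two elements of an admissible set of `K` integers -/
theorem difference_gapq {K : ℕ} (hK : 0 < K) (H : DhlCount K) (T : Finset ℤ) (hT : T.card = K)
    (hc : ∀ p : ℕ, p.Prime → ∃ c : ℤ, ∀ s ∈ T, ¬ (p : ℤ) ∣ s - c) (q : ℕ) (hq : Squarefree q) (c : ℕ)
    (hqT : ∀ s ∈ T, (q : ℤ) ∣ s) (hcq : c.Coprime q) :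
    ∃ a ∈ T, ∃ b ∈ T, a < b ∧ ∀ ε : ℝ, 0 < ε → ∃ᶠ x : ℝ in atTop,
      x ^ (1 - ε) ≤ (Set.ncard {n : ℕ | (Nat.nth Nat.Prime n : ℝ) ≤ x ∧ Nat.nth Nat.Prime n ≡ c [MOD q] ∧
        (Nat.nth Nat.Prime (n + 1) : ℤ) - Nat.nth Nat.Prime n = b - a} : ℝ) := by
  set f := T.orderEmbOfFin hT with hf
  have hmem : ∀ i, f i ∈ T := fun i => Finset.orderEmbOfFin_mem T hT i
  obtain ⟨i, j, hij, h⟩ := gap_of_admissibleq hK H (fun i => f i) f.injective (by
    intro p hp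
    obtain ⟨c, hc'⟩ := hc p hp
    refine ⟨-c, fun i hd => hc' _ (hmem i) ?_⟩
    rwa [neg_add_eq_sub] at hd) q hq (c : ℤ) (fun i => hqT _ (hmem i)) (Nat.isCoprime_iff_coprime.mpr hcq)
  refine ⟨f i, hmem i, f j, hmem j, hij, fun ε hε => ?_⟩
  refine (h ε hε).mono fun x hx => ?_
  refine hx.trans (le_of_eq ?_)
  congr 2
  ext n
  simp only [gapSetC, Set.mem_ofPred_eq]
  rw [Int.natCast_modEq_iff]

end Pool.Agent.K9h56.PG
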